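import Pool.Agent.Helper29.BL.GoalsA
import Pool.Agent.Helper29.BL.GoalsD

/-!
# Project BL, packet CHAIN: a set without long chains is logarithmically small
-/

namespace Pool.Agent.Helper25.BL

open Pool.Agent.Helper29.BL

/-- Append one more cluster to a chain. -/
lemma chain_snoc {G : Type} [AddCommGroup G] {nrm : G → ℝ} {B B' : Finset G} (hsub : B' ⊆ B)
    {t : ℕ} {Kc K0 : ℝ} {R1 : ℕ} {x : G} {T : Fin t → Finset G}
    (hT : Chain nrm B' t Kc K0 R1 x T) (L : Finset G) (hL : L ⊆ B) (hc : L.card = R1)
    (hfar : ∀ z ∈ L, K0 ≤ nrm (x - z))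
    (hsep : ∀ z ∈ B', ∀ z' ∈ L, Kc * nrm (x - z) ≤ nrm (x - z'))
    (hcl : ∀ z ∈ L, ∀ z' ∈ L, ∀ w ∈ L, Kc * nrm (z - z') ≤ nrm (x - w)) :
    Chain nrm B (t + 1) Kc K0 R1 x (Fin.snoc (α := fun _ => Finset G) T L) := by
  refine ⟨hsub hT.x_mem, ?_, ?_, ?_, ?_, ?_⟩
  · intro j
    refine Fin.lastCases ?_ (fun j => ?_) j
    · rw [Fin.snoc_last]; exact hL
    · rw [Fin.snoc_castSucc]; exact (hT.sub j).trans hsub
  · intro j
    refine Fin.lastCases ?_ (fun j => ?_) j
    · rw [Fin.snoc_last]; exact hc
    · rw [Fin.snoc_castSucc]; exact hT.card j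
  · intro j
    refine Fin.lastCases ?_ (fun j => ?_) j
    · rw [Fin.snoc_last]; exact hfar
    · rw [Fin.snoc_castSucc]; exact hT.far j
  · intro i j
    refine Fin.lastCases ?_ (fun j => ?_) j
    · refine Fin.lastCases ?_ (fun i => ?_) i
      · intro h; exact absurd h (lt_irrefl _)
      · intro _
        rw [Fin.snoc_last, Fin.snoc_castSucc]
        intro z hz z' hz'
        exact hsep z (hT.sub i hz) z' hz'
    · refine Fin.lastCases ?_ (fun i => ?_) i
      · intro h
        exact absurd h (not_lt.mpr (Fin.le_last _))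
      · intro h
        rw [Fin.snoc_castSucc, Fin.snoc_castSucc]
        exact hT.sep i j (by simpa using h)
  · intro j
    refine Fin.lastCases ?_ (fun j => ?_) j
    · rw [Fin.snoc_last]; exact hcl
    · rw [Fin.snoc_castSucc]; exact hT.clust j

/-- Restriction of the ambient set. -/
lemma chain_mono {G : Type} [AddCommGroup G] {nrm : G → ℝ} {B B' : Finset G} (hsub : B' ⊆ B)
    {t : ℕ} {Kc K0 : ℝ} {R1 : ℕ} {x : G} {T : Fin t → Finset G}
    (hT : Chain nrm B' t Kc K0 R1 x T) : Chain nrm B t Kc K0 R1 x T :=
  ⟨hsub hT.x_mem, fun j => (hT.sub j).trans hsub, hT.card, hT.far, hT.sep, hT.clust⟩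

lemma key {G : Type} [AddCommGroup G] [DecidableEq G] {nrm : G → ℝ}
    (hsymm : ∀ x y, nrm (x - y) = nrm (y - x))
    (htr : ∀ x y z, nrm (x - z) ≤ nrm (x - y) + nrm (y - z))
    (Γ : Set G) (Kc K0 : ℝ) (R1 : ℕ) (hKc : 1 ≤ Kc) (hK0 : 1 ≤ K0) (N : ℕ)
    (hN : ∀ (B : Finset G), (∀ z ∈ B, z ∈ Γ) → ∀ ρ : ℝ, 0 < ρ →
      (∀ z ∈ B, ∀ z' ∈ B, nrm (z - z') ≤ 16 * Kc ^ 2 * ρ) →
      ∃ f : G → Fin N, ∀ z ∈ B, ∀ z' ∈ B, f z = f z' → nrm (z - z') ≤ ρ)
    (N₁ : ℕ) (hN₁ : ∀ (B : Finset G), (∀ z ∈ B, ∀ z' ∈ B, nrm (z - z') ≤ 16 * Kc * K0) →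
      B.card ≤ N₁) (t : ℕ) :
    ∃ C : ℝ, 0 ≤ C ∧ ∀ n : ℕ, ∀ B : Finset G, (∀ z ∈ B, z ∈ Γ) →
      (∀ (x : G) (T : Fin t → Finset G), ¬ Chain nrm B t Kc K0 R1 x T) →
      (∀ z ∈ B, ∀ z' ∈ B, nrm (z - z') ≤ 2 ^ n) → (B.card : ℝ) ≤ C * (1 + n) := by
  induction t with
  | zero =>
    refine ⟨0, le_rfl, fun n B _ hch _ => ?_⟩
    have hB : B = ∅ := by
      by_contra hne
      obtain ⟨x, hx⟩ := Finset.nonempty_iff_ne_empty.mpr hne
      exact hch x (fun j => j.elim0) ⟨hx, fun j => j.elim0, fun j => j.elim0, fun j => j.elim0,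
        fun i => i.elim0, fun j => j.elim0⟩
    simp [hB]
  | succ t ih =>
    obtain ⟨C, hC0, hC⟩ := ih
    have main : ∀ n : ℕ, ∀ B : Finset G, (∀ z ∈ B, z ∈ Γ) →
        (∀ (x : G) (T : Fin (t + 1) → Finset G), ¬ Chain nrm B (t + 1) Kc K0 R1 x T) →
        (∀ z ∈ B, ∀ z' ∈ B, nrm (z - z') ≤ 2 ^ n) →
        (B.card : ℝ) ≤ N₁ + N * (C * (1 + n)) + N * R1 * n := by
      intro n
      induction n with
      | zero =>
        intro B hBΓ _ hd
        have h1 : B.card ≤ N₁ := by
          refine hN₁ B fun z hz z' hz' => (hd z hz z' hz').trans ?_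
          have : 1 ≤ Kc * K0 := one_le_mul_of_one_le_of_one_le hKc hK0
          rw [pow_zero]; nlinarith
        have h2 : (B.card : ℝ) ≤ N₁ := by exact_mod_cast h1
        have h3 : (0 : ℝ) ≤ N * (C * (1 + (0 : ℕ))) := by positivity
        have h4 : (0 : ℝ) ≤ N * R1 * (0 : ℕ) := by positivity
        linarith
      | succ n ihn =>
        intro B hBΓ hch hd
        have hpos1 : (0 : ℝ) ≤ N * (C * (1 + ((n + 1 : ℕ) : ℝ))) := by positivity
        have hpos2 : (0 : ℝ) ≤ N * R1 * ((n + 1 : ℕ) : ℝ) := by positivity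
        rcases le_or_gt ((2 : ℝ) ^ (n + 1)) (16 * Kc * K0) with hρ | hρ
        · have h1 : B.card ≤ N₁ := hN₁ B fun z hz z' hz' => (hd z hz z' hz').trans hρ
          have h2 : (B.card : ℝ) ≤ N₁ := by exact_mod_cast h1
          linarith
        · have hKc0 : 0 < Kc := by linarith
          obtain ⟨ρ, hρdef⟩ : ∃ ρ : ℝ, ρ = 2 ^ (n + 1) := ⟨_, rfl⟩
          have hρ0 : 0 < ρ := by rw [hρdef]; positivity
          obtain ⟨f, hf⟩ := hN B hBΓ (ρ / (16 * Kc ^ 2)) (by positivity) (by
            intro z hz z' hz'
            have e : 16 * Kc ^ 2 * (ρ / (16 * Kc ^ 2)) = ρ := by field_simp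
            rw [e, hρdef]; exact hd z hz z' hz')
          -- the size of the cells
          have hsz : ρ / (16 * Kc ^ 2) ≤ ρ / 16 := by
            apply div_le_div_of_nonneg_left hρ0.le (by norm_num)
            nlinarith
          have hsz2 : Kc * (ρ / (16 * Kc ^ 2)) ≤ ρ / 16 := by
            have e : Kc * (ρ / (16 * Kc ^ 2)) = ρ / (16 * Kc) := by field_simp
            rw [e]
            apply div_le_div_of_nonneg_left hρ0.le (by norm_num)
            nlinarith
          have hcell : ∀ z ∈ B, ∀ z' ∈ B, f z = f z' → nrm (z - z') ≤ ρ / 16 :=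
            fun z hz z' hz' h => (hf z hz z' hz' h).trans hsz
          have hcellK : ∀ z ∈ B, ∀ z' ∈ B, f z = f z' → Kc * nrm (z - z') ≤ ρ / 16 :=
            fun z hz z' hz' h =>
              (mul_le_mul_of_nonneg_left (hf z hz z' hz' h) hKc0.le).trans hsz2
          by_cases hA : ∃ x ∈ B, ∀ c : Fin N, R1 ≤ (B.filter fun z => f z = c).card →
              ∃ z ∈ B.filter (fun z => f z = c), nrm (x - z) < ρ / 8
          · -- case A
            obtain ⟨x, hxB, hx⟩ := hA
            let U : Finset G := B.filter fun z => R1 ≤ (B.filter fun w => f w = f z).card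
            let V : Finset G := B.filter fun z => ¬ R1 ≤ (B.filter fun w => f w = f z).card
            have hUV : B.card = U.card + V.card :=
              (Finset.card_filter_add_card_filter_not (s := B)
                (fun z => R1 ≤ (B.filter fun w => f w = f z).card)).symm
            have hUB : U ⊆ B := Finset.filter_subset _ _
            have hV : V.card ≤ N * R1 := by
              have h1 : V.card ≤ ∑ c : Fin N, (V.filter fun z => f z = c).card := by
                rw [← Finset.card_eq_sum_card_fiberwise (f := f) (t := Finset.univ)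
                  (fun _ _ => Finset.mem_coe.mpr (Finset.mem_univ _))]
              refine h1.trans ?_
              have h2 : ∀ c ∈ (Finset.univ : Finset (Fin N)),
                  (V.filter fun z => f z = c).card ≤ R1 := by
                intro c _
                rcases Finset.eq_empty_or_nonempty (V.filter fun z => f z = c) with he | ⟨z, hz⟩
                · rw [he]; simp
                · rw [Finset.mem_filter] at hz
                  have hz1 := (Finset.mem_filter.mp hz.1).2
                  have h3 : (V.filter fun z => f z = c) ⊆ B.filter fun w => f w = f z := by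
                    intro w hw
                    rw [Finset.mem_filter] at hw ⊢
                    exact ⟨(Finset.mem_filter.mp hw.1).1, by rw [hw.2, hz.2]⟩
                  exact (Finset.card_le_card h3).trans (not_le.mp hz1).le
              refine (Finset.sum_le_card_nsmul _ _ _ h2).trans ?_
              simp
            have hUd : ∀ z ∈ U, ∀ z' ∈ U, nrm (z - z') ≤ 2 ^ n := by
              have hnear : ∀ z ∈ U, nrm (z - x) ≤ ρ / 4 := by
                intro z hz
                have hzB := hUB hz
                obtain ⟨w, hw, hwx⟩ := hx (f z) (Finset.mem_filter.mp hz).2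
                rw [Finset.mem_filter] at hw
                have h1 := hcell z hzB w hw.1 hw.2.symm
                have h2 := htr z w x
                rw [hsymm w x] at h2
                linarith
              intro z hz z' hz'
              have h1 := hnear z hz
              have h2 := hnear z' hz'
              have h3 := htr z x z'
              rw [hsymm x z'] at h3
              have h4 : ρ = 2 * 2 ^ n := by rw [hρdef, pow_succ]; ring
              linarith
            have hU := ihn U (fun z hz => hBΓ z (hUB hz))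
              (fun x T hT => hch x T (chain_mono hUB hT)) hUd
            have hVr : (V.card : ℝ) ≤ N * R1 := by exact_mod_cast hV
            have hBr : (B.card : ℝ) = U.card + V.card := by exact_mod_cast hUV
            have hNC : (0 : ℝ) ≤ N * C := by positivity
            rw [hBr]
            push_cast
            nlinarith
          · -- case B
            push Not at hA
            have hcells : ∀ c : Fin N, ((B.filter fun z => f z = c).card : ℝ) ≤
                C * (1 + ((n + 1 : ℕ) : ℝ)) := by
              intro c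
              refine hC (n + 1) _ (fun z hz => hBΓ z (Finset.mem_filter.mp hz).1) ?_ ?_
              · intro x T hT
                have hxc := Finset.mem_filter.mp hT.x_mem
                obtain ⟨c', hc', hfar⟩ := hA x hxc.1
                obtain ⟨L, hL, hLc⟩ := Finset.exists_subset_card_eq hc'
                refine hch x _ (chain_snoc (Finset.filter_subset _ _) hT L
                  (hL.trans (Finset.filter_subset _ _)) hLc ?_ ?_ ?_)
                · intro z hz
                  have h1 := hfar z (hL hz)
                  rw [hρdef] at h1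
                  have h2 : 1 * K0 ≤ Kc * K0 := mul_le_mul_of_nonneg_right hKc (by linarith)
                  nlinarith
                · intro z hz z' hz'
                  have h1 := hfar z' (hL hz')
                  rw [Finset.mem_filter] at hz
                  have h2 := hcellK x hxc.1 z hz.1 (hxc.2.trans hz.2.symm)
                  linarith
                · intro z hz z' hz' w hw
                  have h1 := hfar w (hL hw)
                  have hz1 := Finset.mem_filter.mp (hL hz)
                  have hz2 := Finset.mem_filter.mp (hL hz')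
                  have h2 := hcellK z hz1.1 z' hz2.1 (hz1.2.trans hz2.2.symm)
                  linarith
              · intro z hz z' hz'
                exact hd z (Finset.mem_filter.mp hz).1 z' (Finset.mem_filter.mp hz').1
            have hsum : (B.card : ℝ) ≤ N * (C * (1 + ((n + 1 : ℕ) : ℝ))) := by
              have h1 : B.card = ∑ c : Fin N, (B.filter fun z => f z = c).card :=
                Finset.card_eq_sum_card_fiberwise (f := f) (t := Finset.univ)
                  (fun _ _ => Finset.mem_coe.mpr (Finset.mem_univ _))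
              rw [h1]
              push_cast
              refine (Finset.sum_le_sum fun c _ => hcells c).trans ?_
              simp
            have : (0 : ℝ) ≤ N₁ := by positivity
            linarith
    refine ⟨N₁ + N * C + N * R1, by positivity, fun n B hBΓ hch hd => ?_⟩
    refine (main n B hBΓ hch hd).trans ?_
    have h1 : (0 : ℝ) ≤ N₁ * n := by positivity
    have h2 : (0 : ℝ) ≤ N * R1 := by positivity
    nlinarith

/-- **CHAIN**. -/
theorem chain_of : PACK → QSN → CHAIN := by
  intro hP hQ G _ _ Γ hΓ H hH hfin t Kc K0 R1 hKc hK0 hR1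
  obtain ⟨h0, hneg, -, htri⟩ := hQ G H hH
  have hsymm : ∀ x y, (fun z => √(H z)) (x - y) = (fun z => √(H z)) (y - x) := by
    intro x y
    have : H (x - y) = H (y - x) := by rw [← hneg (x - y), neg_sub]
    simp only [this]
  have htr : ∀ x y z, (fun z => √(H z)) (x - z) ≤
      (fun z => √(H z)) (x - y) + (fun z => √(H z)) (y - z) := by
    intro x y z
    have := htri (x - y) (y - z)
    rwa [sub_add_sub_cancel] at this
  have hK : (1 : ℝ) ≤ 16 * Kc ^ 2 := by nlinarith
  obtain ⟨N, hN⟩ := hP G Γ hΓ H hH (16 * Kc ^ 2) hK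
  have hf := hfin ((16 * Kc * K0) ^ 2)
  have hN₁ : ∀ (B : Finset G), (∀ z ∈ B, ∀ z' ∈ B, (fun z => √(H z)) (z - z') ≤ 16 * Kc * K0) →
      B.card ≤ hf.toFinset.card := by
    intro B hB
    rcases Finset.eq_empty_or_nonempty B with rfl | ⟨b, hb⟩
    · simp
    · refine Finset.card_le_card_of_injOn (fun z => z - b) ?_ ?_
      · intro z hz
        have h1 := hB z hz b hb
        simp only [Set.Finite.coe_toFinset, Set.mem_ofPred_eq]
        have h2 : (0 : ℝ) ≤ 16 * Kc * K0 := by positivity
        exact (Real.sqrt_le_left h2).mp h1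
      · intro z _ z' _ h
        exact sub_left_injective h
  obtain ⟨C, hC0, hC⟩ := key (nrm := fun z => √(H z)) hsymm htr (Γ : Set G) Kc K0 R1 hKc hK0 N hN _ hN₁ t
  refine ⟨2 * C, by positivity, fun B hBΓ hch ρ hρ hd => ?_⟩
  have hρ0 : 0 < ρ := by linarith
  obtain ⟨n, hn⟩ : ∃ n : ℕ, n = ⌈Real.logb 2 ρ⌉₊ := ⟨_, rfl⟩
  have hlb0 : 0 ≤ Real.logb 2 ρ := Real.logb_nonneg (by norm_num) hρ
  have hn1 : (n : ℝ) ≤ Real.logb 2 ρ + 1 := by
    rw [hn]; exact (Nat.ceil_lt_add_one hlb0).le
  have hn2 : ρ ≤ 2 ^ n := by
    have h1 : Real.logb 2 ρ ≤ n := by rw [hn]; exact Nat.le_ceil _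
    rw [Real.logb_le_iff_le_rpow (by norm_num) hρ0] at h1
    rwa [Real.rpow_natCast] at h1
  have h1 := hC n B hBΓ hch fun z hz z' hz' => (hd z hz z' hz').trans hn2
  refine h1.trans ?_
  have hlog2 : (1 : ℝ) / 2 < Real.log 2 := by
    have := Real.log_two_gt_d9; linarith
  have hlρ : 0 ≤ Real.log ρ := Real.log_nonneg hρ
  have h2 : Real.logb 2 ρ ≤ 2 * Real.log ρ := by
    rw [Real.logb, div_le_iff₀ (by linarith)]
    nlinarith
  nlinarith

end Pool.Agent.Helper25.BL
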